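import Pool.Agent.Helper2_Pak.Stmts
import Pool.Agent.Helper2_Pack.S2

/-!
# PAK1 module C2: the uncovered area is small
-/

namespace Pool.Agent.Helper2_Pak.H51

open MeasureTheory Set
open Pool.Agent.Helper2_Pack (Motion)

theorem volume_box {t : ℝ} (ht : 0 < t) (a : ℂ) :
    volume {z : ℂ | -t ≤ (z - a).re ∧ (z - a).re ≤ 1 + t ∧ -t ≤ (z - a).im ∧ (z - a).im ≤ 1 + t} =
      ENNReal.ofReal ((1 + 2 * t) ^ 2) := by
  have h1 : {z : ℂ | -t ≤ (z - a).re ∧ (z - a).re ≤ 1 + t ∧ -t ≤ (z - a).im ∧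
      (z - a).im ≤ 1 + t} = Complex.measurableEquivRealProd ⁻¹'
      (Set.Icc (a.re - t) (a.re + 1 + t) ×ˢ Set.Icc (a.im - t) (a.im + 1 + t)) := by
    ext z
    simp only [Set.mem_preimage, Set.mem_prod, Set.mem_Icc, Complex.measurableEquivRealProd_apply,
      Set.mem_ofPred_eq, Complex.sub_re, Complex.sub_im]
    constructor
    · rintro ⟨h1, h2, h3, h4⟩
      exact ⟨⟨by linarith, by linarith⟩, by linarith, by linarith⟩
    · rintro ⟨⟨h1, h2⟩, h3, h4⟩
      exact ⟨by linarith, by linarith, by linarith, by linarith⟩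
  rw [h1, Complex.volume_preserving_equiv_real_prod.measure_preimage
    (measurableSet_Icc.prod measurableSet_Icc).nullMeasurableSet, Measure.volume_eq_prod,
    Measure.prod_prod, Real.volume_Icc, Real.volume_Icc, ← ENNReal.ofReal_mul (by linarith)]
  congr 1
  ring

theorem occ_volume (hS1 : S1Stmt) {t : ℝ} {G : Lay} (p : Packing t G) (ht : 0 < t)
    (ht1 : t ≤ 1 / 2 ^ 60) :
    MeasurableSet (⋃ i, tile t (p.g i)) ∧
      volume (⋃ i, tile t (p.g i)) = G.K * volume (shape t) ∧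
      volume (⋃ i, tile t (p.g i)) ≠ ⊤ := by
  obtain ⟨-, -, hc, hf⟩ := hS1 t ht ht1
  have hcomp : ∀ i, IsCompact (tile t (p.g i)) := fun i => hc.image (p.g i).homeo.continuous
  have hmeas : ∀ i, MeasurableSet (tile t (p.g i)) := fun i => (hcomp i).measurableSet
  have hfr : ∀ i, volume (frontier (tile t (p.g i))) = 0 := by
    intro i
    have h2 : frontier ((p.g i).app '' shape t) = (p.g i).app '' frontier (shape t) :=
      ((p.g i).homeo.image_frontier (shape t)).symm
    show volume (frontier ((p.g i).app '' shape t)) = 0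
    rw [h2, (p.g i).volume_image]
    exact hf
  have hdis : Pairwise (Function.onFun (AEDisjoint volume) fun i => tile t (p.g i)) := by
    intro i j hij
    show volume (tile t (p.g i) ∩ tile t (p.g j)) = 0
    refine measure_mono_null (t := frontier (tile t (p.g i)) ∪
      frontier (tile t (p.g j))) ?_ (measure_union_null (hfr i) (hfr j))
    rintro z ⟨hi, hj⟩
    by_contra hc
    rw [mem_union, not_or] at hc
    have h1 : z ∈ interior (tile t (p.g i)) := by
      by_contra h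
      exact hc.1 ((hcomp i).isClosed.frontier_eq ▸ ⟨hi, h⟩)
    have h2 : z ∈ interior (tile t (p.g j)) := by
      by_contra h
      exact hc.2 ((hcomp j).isClosed.frontier_eq ▸ ⟨hj, h⟩)
    exact Set.disjoint_left.1 (p.disj i j hij) h1 h2
  have hvol : volume (⋃ i, tile t (p.g i)) = G.K * volume (shape t) := by
    rw [measure_iUnion₀ hdis (fun i => (hmeas i).nullMeasurableSet), tsum_fintype]
    have h3 : ∀ i ∈ Finset.univ, volume (tile t (p.g i)) = volume (shape t) := by
      intro i _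
      exact (p.g i).volume_image _
    rw [Finset.sum_congr rfl h3, Finset.sum_const, Finset.card_univ, nsmul_eq_mul]
    rfl
  refine ⟨MeasurableSet.iUnion hmeas, hvol, ?_⟩
  rw [hvol]
  exact ENNReal.mul_ne_top (ENNReal.natCast_ne_top _) hc.measure_ne_top

theorem c2 (hS1 : S1Stmt) (hS2 : S2Stmt) (hG1 : G1Stmt) (hG2 : G2Stmt) : C2Stmt := by
  intro t G p hG hs
  have ht := hs.pos
  obtain ⟨ht120, hK, hK1, -⟩ := hG1 t G hG hs
  have ht60 : t ≤ 1 / 2 ^ 60 := ht120.trans (by norm_num)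
  obtain ⟨hm, hv, hf⟩ := occ_volume hS1 p ht ht60
  have hsub : (⋃ i, tile t (p.g i)) ⊆ G.cont t := iUnion_subset p.sub
  unfold Packing.free
  rw [measure_sdiff hsub hm.nullMeasurableSet hf, tsub_le_iff_left, hv]
  have hcov : volume (G.cont t) ≤ G.K * ENNReal.ofReal ((1 + 2 * t) ^ 2) := by
    have h1 : G.cont t ⊆ ⋃ i : Cell G, {z : ℂ | -t ≤ (z - corner i).re ∧
        (z - corner i).re ≤ 1 + t ∧ -t ≤ (z - corner i).im ∧ (z - corner i).im ≤ 1 + t} := by
      intro z hz
      obtain ⟨i, hi⟩ := (hG2 t G hG hs).2.1 z hz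
      exact mem_iUnion.2 ⟨i, hi⟩
    refine (measure_mono h1).trans ((measure_iUnion_le _).trans ?_)
    rw [tsum_fintype]
    have h3 : ∀ i ∈ (Finset.univ : Finset (Cell G)), volume {z : ℂ | -t ≤ (z - corner i).re ∧
        (z - corner i).re ≤ 1 + t ∧ -t ≤ (z - corner i).im ∧ (z - corner i).im ≤ 1 + t} =
        ENNReal.ofReal ((1 + 2 * t) ^ 2) := fun i _ => volume_box ht _
    rw [Finset.sum_congr rfl h3, Finset.sum_const, Finset.card_univ, nsmul_eq_mul]
    rfl
  refine hcov.trans ?_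
  have hlow := (hS2 t ht ht60).2.2
  have h4 : (G.K : ENNReal) = ENNReal.ofReal (G.K : ℝ) := (ENNReal.ofReal_natCast _).symm
  have ht16 : 0 ≤ 1 - 16 * t := by
    have : (1 : ℝ) / 2 ^ 60 ≤ 1 / 16 := by norm_num
    linarith
  have hKnn : (0 : ℝ) ≤ G.K := Nat.cast_nonneg _
  calc (G.K : ENNReal) * ENNReal.ofReal ((1 + 2 * t) ^ 2)
      = ENNReal.ofReal (G.K * (1 + 2 * t) ^ 2) := by rw [h4, ← ENNReal.ofReal_mul hKnn]
    _ ≤ ENNReal.ofReal (G.K * (1 - 16 * t) + 32 * G.K * t) := by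
        apply ENNReal.ofReal_le_ofReal
        have h5 : (1 + 2 * t) ^ 2 ≤ (1 - 16 * t) + 32 * t := by
          have : (1 : ℝ) / 2 ^ 60 ≤ 1 / 16 := by norm_num
          nlinarith
        nlinarith
    _ = ENNReal.ofReal (G.K * (1 - 16 * t)) + ENNReal.ofReal (32 * G.K * t) :=
        ENNReal.ofReal_add (by positivity) (by positivity)
    _ ≤ G.K * volume (shape t) + ENNReal.ofReal (32 * G.K * t) := by
        refine add_le_add ?_ le_rfl
        rw [ENNReal.ofReal_mul hKnn, ← h4]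
        exact mul_le_mul' le_rfl hlow

end Pool.Agent.Helper2_Pak.H51
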