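import Pool.Agent.Helper2_Pak.Stmts
import Pool.Agent.Helper2_Pack.S2

/-!
# PAK1 module C3: little squares
-/

namespace Pool.Agent.Helper2_Pak.H51

open MeasureTheory Set
open Pool.Agent.Helper2_Pack (Motion)

theorem volume_Sq {q : ℝ} (hq : 0 < q) (w : ℂ) : volume {z | Sq q w z} = ENNReal.ofReal (q ^ 2) := by
  have h1 : {z | Sq q w z} = Complex.measurableEquivRealProd ⁻¹'
      (Set.Ioo (w.re - q / 2) (w.re + q / 2) ×ˢ Set.Ioo (w.im - q / 2) (w.im + q / 2)) := by
    ext z
    simp only [Sq, Set.mem_preimage, Set.mem_prod, Set.mem_Ioo, Complex.measurableEquivRealProd_apply,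
      abs_lt]
    constructor
    · rintro ⟨⟨h1, h2⟩, h3, h4⟩
      exact ⟨⟨by linarith, by linarith⟩, by linarith, by linarith⟩
    · rintro ⟨⟨h1, h2⟩, h3, h4⟩
      exact ⟨⟨by linarith, by linarith⟩, by linarith, by linarith⟩
  rw [h1, Complex.volume_preserving_equiv_real_prod.measure_preimage
    (measurableSet_Ioo.prod measurableSet_Ioo).nullMeasurableSet, Measure.volume_eq_prod,
    Measure.prod_prod, Real.volume_Ioo, Real.volume_Ioo, ← ENNReal.ofReal_mul (by linarith)]
  congr 1
  ring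

/-- the part of the core which is not covered by the tile -/
def bad (t : ℝ) (g : Motion) : Set ℂ :=
  g.app '' ({z : ℂ | |z.re| ≤ 1 / 2 - 2 * t ∧ |z.im| ≤ 1 / 2 - 2 * t} \ shape t)

theorem volume_bad (h2 : S2Stmt) {t : ℝ} (ht : 0 < t) (ht1 : t ≤ 1 / 2 ^ 60) (g : Motion) :
    volume (bad t g) ≤ ENNReal.ofReal (16 * t ^ 7) := by
  unfold bad
  rw [g.volume_image]
  exact (h2 t ht ht1).2.1

theorem core_cases {t : ℝ} {g : Motion} {z : ℂ} (h : InCore t g z) :
    z ∈ bad t g ∨ z ∈ tile t g := by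
  by_cases h1 : (starRingEnd ℂ g.u) * (z - g.v) ∈ shape t
  · exact Or.inr ((g.mem_image _ z).2 h1)
  · exact Or.inl ((g.mem_image _ z).2 ⟨h, h1⟩)

theorem frontier_tile (h1 : S1Stmt) {t : ℝ} (ht : 0 < t) (ht1 : t ≤ 1 / 2 ^ 60) (g : Motion) :
    volume (frontier (tile t g)) = 0 := by
  have h2 : frontier (g.app '' shape t) = g.app '' frontier (shape t) :=
    (g.homeo.image_frontier (shape t)).symm
  show volume (frontier (g.app '' shape t)) = 0
  rw [h2, g.volume_image]
  exact (h1 t ht ht1).2.2.2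

theorem tile_cases {t : ℝ} {g : Motion} {z : ℂ} (h : z ∈ tile t g) :
    z ∈ frontier (tile t g) ∨ z ∈ interior (tile t g) := by
  by_cases h1 : z ∈ interior (tile t g)
  · exact Or.inr h1
  · exact Or.inl ⟨subset_closure h, h1⟩

theorem rho_facts {t : ℝ} {G : Lay} (ht : 0 < t) (hK1 : 1 ≤ G.K) (ht1 : t ≤ 1 / 2 ^ 60) :
    0 < rhoG t G ∧ rhoG t G ^ 2 = 64 * (G.K * t) ∧ 32 * t ^ 7 < 32 * (G.K * t) := by
  have hK : (1 : ℝ) ≤ G.K := by exact_mod_cast hK1
  have h0 : 0 < G.K * t := by positivity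
  refine ⟨?_, ?_, ?_⟩
  · unfold rhoG
    have := Real.sqrt_pos.2 h0
    positivity
  · unfold rhoG
    rw [mul_pow, Real.sq_sqrt h0.le]
    norm_num
  · have h1 : t ^ 6 < 1 := by
      have h2 : t < 1 := lt_of_le_of_lt ht1 (by norm_num)
      exact pow_lt_one₀ ht.le h2 (by norm_num)
    have h3 : t ^ 7 = t * t ^ 6 := by ring
    rw [h3]
    have h4 : t * t ^ 6 < t * 1 := mul_lt_mul_of_pos_left h1 ht
    nlinarith

theorem c3 (hS1 : S1Stmt) (hS2 : S2Stmt) (hC2 : C2Stmt) (hG1 : G1Stmt) : C3Stmt := by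
  intro t G p hG hs
  have ht := hs.pos
  obtain ⟨ht120, hK, hK1, -⟩ := hG1 t G hG hs
  have ht60 : t ≤ 1 / 2 ^ 60 := ht120.trans (by norm_num)
  obtain ⟨hr0, hr2, hr3⟩ := rho_facts (G := G) ht hK1 ht60
  have hKt : 0 < G.K * t := by
    have hK' : (1 : ℝ) ≤ G.K := by exact_mod_cast hK1
    positivity
  have ht7 : 0 < t ^ 7 := by positivity
  refine ⟨?_, ?_, ?_⟩
  · rintro i j hij w ⟨hi, hj⟩
    have hsub : {z | Sq (rhoG t G) w z} ⊆ (bad t (p.g i) ∪ bad t (p.g j)) ∪
        (frontier (tile t (p.g i)) ∪ frontier (tile t (p.g j))) := by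
      intro z hz
      rcases core_cases (hi z hz) with h | h
      · exact Or.inl (Or.inl h)
      rcases core_cases (hj z hz) with h' | h'
      · exact Or.inl (Or.inr h')
      rcases tile_cases h with h | h
      · exact Or.inr (Or.inl h)
      rcases tile_cases h' with h' | h'
      · exact Or.inr (Or.inr h')
      exact absurd h' (Set.disjoint_left.1 (p.disj i j hij) h)
    have h1 : volume {z | Sq (rhoG t G) w z} ≤
        (ENNReal.ofReal (16 * t ^ 7) + ENNReal.ofReal (16 * t ^ 7)) + (0 + 0) := by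
      refine (measure_mono hsub).trans ((measure_union_le _ _).trans (add_le_add ?_ ?_))
      · exact (measure_union_le _ _).trans (add_le_add (volume_bad hS2 ht ht60 _)
          (volume_bad hS2 ht ht60 _))
      · refine (measure_union_le _ _).trans (add_le_add ?_ ?_)
        · rw [frontier_tile hS1 ht ht60]
        · rw [frontier_tile hS1 ht ht60]
    rw [volume_Sq hr0, add_zero, add_zero, ← ENNReal.ofReal_add (by positivity) (by positivity),
      ENNReal.ofReal_le_ofReal_iff (by positivity), hr2] at h1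
    linarith
  · intro i w hi
    by_contra hcon
    have hsub : {z | Sq (rhoG t G) w z} ⊆ bad t (p.g i) := by
      intro z hz
      rcases core_cases (hi z hz) with h | h
      · exact h
      · exact absurd ⟨z, hz, p.sub i h⟩ hcon
    have h1 := (measure_mono hsub).trans (volume_bad hS2 ht ht60 _)
    rw [volume_Sq hr0, ENNReal.ofReal_le_ofReal_iff (by positivity), hr2] at h1
    linarith
  · intro w hw
    by_contra hcon
    have hsub : {z | Sq (rhoG t G) w z} ⊆ ({z | Sq (rhoG t G) w z} \ G.cont t) ∪ p.free := by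
      intro z hz
      by_cases h1 : z ∈ G.cont t
      · refine Or.inr ⟨h1, fun hz' => ?_⟩
        obtain ⟨i, hi⟩ := Set.mem_iUnion.1 hz'
        exact hcon ⟨i, z, hz, hi⟩
      · exact Or.inl ⟨hz, h1⟩
    have h1 := (measure_mono hsub).trans ((measure_union_le _ _).trans
      (add_le_add hw (hC2 t G p hG hs)))
    rw [volume_Sq hr0, ← ENNReal.ofReal_add (by positivity) (by positivity),
      ENNReal.ofReal_le_ofReal_iff (by positivity), hr2] at h1
    linarith

end Pool.Agent.Helper2_Pak.H51
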