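import Pool.Agent.Helper2_Pak.StmtsK

/-!
# PAK1 module U1a: the weights
-/

namespace Pool.Agent.Helper2_Pak.H51

open Pool.Agent.Helper2_Pack (SInst Con)

/-- the weight of a kind -/
def tau : Kind → ℤ
  | .U => 4
  | .Uv => 4
  | .Z => 4
  | .Zw => 4
  | .V1 => 3
  | .W1 => 3
  | .V2 => 2
  | .W2 => 2
  | .V3 _ => 1
  | .W3 _ => 1
  | _ => 0

/-- the threshold in the local rows of a block -/
def gam (S : SInst) (b j : ℕ) : ℤ :=
  match blk S b with
  | .sum _ a a' a'' _ => if j = 1 then 20 * a'' + 6 else if j = 3 then 20 * a' + 4 else 20 * a + 2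
  | _ => 0

/-- the weight of a column -/
def alph (S : SInst) (c : ℕ) : ℤ := 20 * ((lay S).l c : ℤ) + 2 * tau ((lay S).kd c)

/-- the weight of a part of a row -/
def bet (S : SInst) (s r : ℕ) : ℤ :=
  if r % 2 = 0 then -(20 * (nR S : ℤ) + 100)
  else if r < (lay S).N then -20 * (((r + 1) / 2 : ℕ) : ℤ) + 9
  else 1 - gam S (s / 7) (r - 2 * nR S)

theorem tau_bd (κ : Kind) : 0 ≤ tau κ ∧ tau κ ≤ 4 := by
  cases κ <;> simp [tau]

theorem kd_eq (S : SInst) (c : ℕ) :
    (lay S).kd c = ((blk S (c / 7)).col (nR S) (c % 7)).1 := rfl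

theorem l_eq (S : SInst) (c : ℕ) :
    (lay S).l c = ((blk S (c / 7)).col (nR S) (c % 7)).2 := rfl

theorem l_le (h0 : U0Stmt) (S : SInst) (hS : S.WF) (c : ℕ) : (lay S).l c ≤ nR S := by
  obtain ⟨h1, h2, -, -, -, -⟩ := h0 S hS
  rw [l_eq]
  have hk : c % 7 < 7 := Nat.mod_lt _ (by norm_num)
  generalize c % 7 = k at hk
  generalize c / 7 = b
  rcases hb : blk S b with _ | ⟨right, a, a', a'', o⟩ | ⟨i, j⟩
  · simp [Blk.col]
  · obtain ⟨g1, g2, g3, -⟩ := h1 b right a a' a'' o hb
    cases right <;> interval_cases k <;> simp [Blk.col] <;> omega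
  · obtain ⟨g1, g2, -⟩ := h2 b i j hb
    have : nR S = 2 * S.n + 1 := rfl
    interval_cases k <;> simp [Blk.col] <;> omega

theorem pres_iff (G : Lay) (c r : ℕ) : G.pres c r = true ↔ c < G.M ∧ r < G.top c := by
  unfold Lay.pres
  rw [Bool.and_eq_true, decide_eq_true_iff, decide_eq_true_iff]

theorem st_le (G : Lay) (c r : ℕ) : G.st c r ≤ c := by
  induction c with
  | zero => exact le_rfl
  | succ c ih =>
    unfold Lay.st
    split_ifs
    · exact ih.trans (Nat.le_succ c)
    · exact le_rfl

theorem le_st (G : Lay) (c₀ c r : ℕ) (h : G.pres c₀ r = false) (hc : c₀ < c) :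
    c₀ + 1 ≤ G.st c r := by
  induction c with
  | zero => omega
  | succ c ih =>
    unfold Lay.st
    by_cases h1 : c₀ = c
    · rw [← h1, h]
      simp
    · have h2 := ih (by omega)
      split_ifs
      · exact h2
      · omega

/-- the part of a local row lies in one block -/
theorem st_div (h0 : U0Stmt) (S : SInst) (hS : S.WF) (c r : ℕ) (hp : (lay S).pres c r = true)
    (hr : (lay S).N ≤ r) : (lay S).st c r / 7 = c / 7 := by
  obtain ⟨h1, h2, -, -, h5, -⟩ := h0 S hS
  have h3 := st_le (lay S) c r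
  obtain ⟨hpc, hpr⟩ := (pres_iff _ _ _).1 hp
  have hh0 : 0 < ((lay S).kd c).h := by
    unfold Lay.top at hpr
    omega
  have hnp : ∀ c', ((lay S).kd c').h = 0 → (lay S).pres c' r = false := by
    intro c' hc'
    rw [Bool.eq_false_iff]
    intro h
    obtain ⟨-, h⟩ := (pres_iff _ _ _).1 h
    unfold Lay.top at h
    omega
  have hk : c % 7 < 7 := Nat.mod_lt _ (by norm_num)
  have hc : c = 7 * (c / 7) + c % 7 := by omega
  suffices h : 7 * (c / 7) ≤ (lay S).st c r by omega
  rcases hb : blk S (c / 7) with _ | ⟨right, a, a', a'', o⟩ | ⟨i, j⟩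
  · rw [kd_eq, hb] at hh0
    simp [Blk.col, Kind.h] at hh0
  · obtain ⟨-, -, -, -, -, hR, hL⟩ := h1 _ _ _ _ _ _ hb
    cases right with
    | false =>
      have h6 : ((lay S).kd (7 * (c / 7))).h = 0 := by
        have := h5 (c / 7) 0 (by norm_num)
        rw [add_zero] at this
        rw [this.1, hb]
        rfl
      have h7 : 7 * (c / 7) < c := by
        rcases Nat.eq_zero_or_pos (c % 7) with h8 | h8
        · rw [h8, add_zero] at hc
          rw [← hc] at h6
          omega
        · omega
      have := le_st (lay S) _ c r (hnp _ h6) h7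
      omega
    | true =>
      obtain ⟨g1, g2⟩ := hR rfl
      have h6 : ((lay S).kd (7 * (c / 7) - 1)).h = 0 := by
        have h7 : 7 * (c / 7) - 1 = 7 * (c / 7 - 1) + 6 := by omega
        rw [h7, (h5 (c / 7 - 1) 6 (by norm_num)).1]
        rcases hb' : blk S (c / 7 - 1) with _ | ⟨right', b, b', b'', o'⟩ | ⟨i', j'⟩
        · rfl
        · cases right' with
          | false =>
            obtain ⟨-, -, -, -, -, -, hL'⟩ := h1 _ _ _ _ _ _ hb'
            have := hL' rfl
            omega
          | true => rfl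
        · rfl
      have := le_st (lay S) _ c r (hnp _ h6) (by omega)
      omega
  · rw [kd_eq, hb] at hh0
    interval_cases c % 7 <;> simp [Blk.col, Kind.h] at hh0

theorem u1a (h0 : U0Stmt) : U1aStmt := by
  intro S hS
  refine ⟨alph S, bet S, fun c r hp => ?_⟩
  have hN : (lay S).N = 2 * nR S + 1 := rfl
  have hn : (lay S).n = nR S := rfl
  obtain ⟨ht0, ht4⟩ := tau_bd ((lay S).kd c)
  have hl := l_le h0 S hS c
  have hl' : ((lay S).l c : ℤ) ≤ nR S := by exact_mod_cast hl
  by_cases hr : r < (lay S).N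
  · -- main rows
    have hspc : (lay S).spc c r = (decide (r % 2 = 1) && decide (r + 1 ≤ 2 * (lay S).l c)) := by
      unfold Lay.spc
      rw [if_pos hr]
    by_cases he : r % 2 = 0
    · have hb : bet S ((lay S).st c r) r = -(20 * (nR S : ℤ) + 100) := by
        unfold bet
        rw [if_pos he]
      rw [hb, hspc]
      refine ⟨fun h => ?_, fun _ => ?_⟩
      · rw [Bool.and_eq_true, decide_eq_true_iff] at h
        omega
      · unfold alph
        linarith
    · have hb : bet S ((lay S).st c r) r = -20 * (((r + 1) / 2 : ℕ) : ℤ) + 9 := by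
        unfold bet
        rw [if_neg he, if_pos hr]
      rw [hb, hspc]
      refine ⟨fun h => ?_, fun h => ?_⟩
      · rw [Bool.and_eq_true, decide_eq_true_iff, decide_eq_true_iff] at h
        unfold alph
        have : (r + 1) / 2 ≤ (lay S).l c := by omega
        have : (((r + 1) / 2 : ℕ) : ℤ) ≤ (lay S).l c := by exact_mod_cast this
        linarith
      · rw [Bool.and_eq_false_iff, decide_eq_false_iff_not, decide_eq_false_iff_not] at h
        unfold alph
        have : (lay S).l c + 1 ≤ (r + 1) / 2 := by omega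
        have : ((lay S).l c : ℤ) + 1 ≤ (((r + 1) / 2 : ℕ) : ℤ) := by exact_mod_cast this
        linarith
  · -- local rows
    have hr' : (lay S).N ≤ r := Nat.le_of_not_lt hr
    have hspc : (lay S).spc c r = ((lay S).kd c).sp (r - 2 * nR S) := by
      unfold Lay.spc
      rw [if_neg hr]
      rfl
    obtain ⟨-, hpr⟩ := (pres_iff _ _ _).1 hp
    have htop : (lay S).top c = (lay S).N + ((lay S).kd c).h := rfl
    have hj : 1 ≤ r - 2 * nR S ∧ r - 2 * nR S ≤ ((lay S).kd c).h := by omega
    by_cases he : r % 2 = 0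
    · have hb : bet S ((lay S).st c r) r = -(20 * (nR S : ℤ) + 100) := by
        unfold bet
        rw [if_pos he]
      rw [hb, hspc]
      have hjne : (r - 2 * nR S) % 2 = 0 := by omega
      refine ⟨fun h => ?_, fun _ => ?_⟩
      · generalize r - 2 * nR S = j at *
        exfalso
        generalize (lay S).kd c = κ at h
        cases κ <;> simp [Kind.sp] at h <;> omega
      · unfold alph
        linarith
    · have hb : bet S ((lay S).st c r) r = 1 - gam S (c / 7) (r - 2 * nR S) := by
        unfold bet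
        rw [if_neg he, if_neg hr, st_div h0 S hS c r hp hr']
      rw [hb, hspc]
      have hjo : (r - 2 * nR S) % 2 = 1 := by omega
      generalize r - 2 * nR S = j at *
      obtain ⟨h1, -⟩ := h0 S hS
      unfold alph gam
      rw [kd_eq, l_eq]
      rw [kd_eq] at hj
      have hk : c % 7 < 7 := Nat.mod_lt _ (by norm_num)
      generalize c % 7 = k at *
      rcases hb' : blk S (c / 7) with _ | ⟨right, a, a', a'', o⟩ | ⟨i, i'⟩
      · rw [hb'] at hj
        simp [Blk.col, Kind.h] at hj
        omega
      · obtain ⟨g1, g2, g3, -⟩ := h1 _ _ _ _ _ _ hb'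
        rw [hb'] at hj
        have g1' : (a : ℤ) ≤ a' := by exact_mod_cast g1
        have g2' : (a' : ℤ) ≤ a'' := by exact_mod_cast g2
        have g3' : (a'' : ℤ) ≤ nR S := by exact_mod_cast g3
        have g0 : (0 : ℤ) ≤ a := Int.natCast_nonneg a
        have hj5 : j ≤ 5 := by
          have : ((Blk.sum right a a' a'' o).col (nR S) k).1.h ≤ 5 := by
            generalize ((Blk.sum right a a' a'' o).col (nR S) k).1 = κ
            cases κ <;> simp [Kind.h]
          omega
        have hj135 : j = 1 ∨ j = 3 ∨ j = 5 := by omega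
        cases right <;> rcases hj135 with rfl | rfl | rfl <;> interval_cases k <;>
          simp [Blk.col, Kind.h, Kind.sp, tau] at hj ⊢ <;> linarith
      · rw [hb'] at hj
        interval_cases k <;> simp [Blk.col, Kind.h] at hj <;> omega

end Pool.Agent.Helper2_Pak.H51
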