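import Pool.Agent.Helper51_Pak.U1a

/-!
# PAK1 module U3: from a solution to displacements
-/

namespace Pool.Agent.Helper2_Pak.H51

open Pool.Agent.Helper2_Pack (SInst Con)

/-- the values of the columns -/
noncomputable def zet (S : SInst) (z : ℕ → ℝ) (m : ℕ) : ℝ :=
  if m = 0 ∨ nR S ≤ m then 0 else if m % 2 = 1 then z (m / 2) else -z (m / 2 - 1)

theorem zet_zero (S : SInst) (z : ℕ → ℝ) : zet S z 0 = 0 := by
  unfold zet
  rw [if_pos (Or.inl rfl)]

theorem zet_nR (S : SInst) (z : ℕ → ℝ) : zet S z (nR S) = 0 := by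
  unfold zet
  rw [if_pos (Or.inr le_rfl)]

theorem zet_odd (S : SInst) (z : ℕ → ℝ) {i : ℕ} (hi : i < S.n) : zet S z (2 * i + 1) = z i := by
  have hn : nR S = 2 * S.n + 1 := rfl
  unfold zet
  rw [if_neg (by omega), if_pos (by omega)]
  congr 1
  omega

theorem zet_even (S : SInst) (z : ℕ → ℝ) {i : ℕ} (hi : i < S.n) :
    zet S z (2 * i + 2) = -z i := by
  have hn : nR S = 2 * S.n + 1 := rfl
  unfold zet
  rw [if_neg (by omega), if_neg (by omega)]
  congr 2
  omega

theorem zet_bd (S : SInst) (z : ℕ → ℝ) (hz : ∀ i, i < S.n → |z i| ≤ 1) (m : ℕ) :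
    |zet S z m| ≤ 1 := by
  have hn : nR S = 2 * S.n + 1 := rfl
  unfold zet
  split_ifs with h1 h2
  · simp
  · push Not at h1
    exact hz _ (by omega)
  · push Not at h1
    rw [abs_neg]
    exact hz _ (by omega)

/-- the displacements in the local rows -/
noncomputable def loc (S : SInst) (z : ℕ → ℝ) (t : ℝ) (B : Blk) (j : ℕ) : ℝ :=
  match B with
  | .sum right a a' a'' o =>
    if j = 1 then -t ^ 4 * zet S z a'' else if j = 3 then -t ^ 4 * zet S z a'
    else if j = 5 then (if right then (o : ℝ) else -(o : ℝ)) * t ^ 4 - t ^ 4 * zet S z a else 0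
  | _ => 0

/-- the displacements -/
noncomputable def dsp (S : SInst) (z : ℕ → ℝ) (t : ℝ) (c r : ℕ) : ℝ :=
  if r % 2 = 0 then 0
  else if r < (lay S).N then t ^ 4 * (zet S z ((r + 1) / 2) - zet S z (r / 2))
  else loc S z t (blk S (c / 7)) (r - 2 * nR S)

/-- the inequality of a block -/
def Qb (S : SInst) (z : ℕ → ℝ) (ε : ℝ) : Blk → Prop
  | .blank => True
  | .sum true a a' a'' o => zet S z a + zet S z a' + zet S z a'' ≤ o
  | .sum false a a' a'' o => -(zet S z a + zet S z a' + zet S z a'') ≤ o
  | .inv i j => z i + z j + ε * (z i * z j) = 0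

theorem srt3_sum (f : ℕ → ℝ) (x y z : ℕ) :
    f (srt3 x y z).1 + f (srt3 x y z).2.1 + f (srt3 x y z).2.2 = f x + f y + f z := by
  unfold srt3
  split_ifs <;> simp <;> ring

theorem idx_sum (S : SInst) (z : ℕ → ℝ) (I : List ℕ) (h0 : I ≠ []) (h3 : I.length ≤ 3)
    (hI : ∀ i ∈ I, i < S.n) :
    zet S z (idx (nR S) I 0) + zet S z (idx (nR S) I 1) + zet S z (idx (nR S) I 2) =
      (I.map z).sum := by
  match I, h0, h3 with
  | [a], _, _ =>
    have ha := hI a (by simp)
    simp [idx, zet_nR, zet_odd S z ha]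
  | [a, b], _, _ =>
    have ha := hI a (by simp)
    have hb := hI b (by simp)
    simp [idx, zet_nR, zet_odd S z ha, zet_odd S z hb]
  | [a, b, c], _, _ =>
    have ha := hI a (by simp)
    have hb := hI b (by simp)
    have hc := hI c (by simp)
    simp [idx, zet_odd S z ha, zet_odd S z hb, zet_odd S z hc]
    ring

theorem q_sumBlk (S : SInst) (z : ℕ → ℝ) (ε : ℝ) (right : Bool) (I : List ℕ) (κ : ℤ)
    (h0 : I ≠ []) (h3 : I.length ≤ 3) (hI : ∀ i ∈ I, i < S.n) (h : (I.map z).sum = κ) :
    Qb S z ε (sumBlk right (nR S) I (if right then κ else -κ)) := by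
  have h4 := srt3_sum (zet S z) (idx (nR S) I 0) (idx (nR S) I 1) (idx (nR S) I 2)
  rw [idx_sum S z I h0 h3 hI, h] at h4
  cases right with
  | false =>
    show -(_ + _ + _) ≤ (((if false = true then κ else -κ : ℤ)) : ℝ)
    rw [h4]
    simp
  | true =>
    show _ + _ + _ ≤ (((if true = true then κ else -κ : ℤ)) : ℝ)
    rw [h4]
    simp

theorem q_half (S : SInst) (z : ℕ → ℝ) (ε : ℝ) (hS : S.WF) (hz : ∀ i, i < S.n → |z i| ≤ 1)
    (hc : ∀ c ∈ S.cons, c.Holds ε z) (right : Bool) (e : ℕ) (he : e < nT S) :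
    Qb S z ε (halfBlk S right e) := by
  unfold halfBlk
  split_ifs with h1 h2
  · have h3 := abs_le.1 (hz e h1)
    cases right with
    | false =>
      show -(_ + _ + _) ≤ (((1 : ℤ)) : ℝ)
      rw [zet_odd S z h1, zet_nR]
      push_cast
      linarith [h3.1]
    | true =>
      show _ + _ + _ ≤ (((1 : ℤ)) : ℝ)
      rw [zet_odd S z h1, zet_nR]
      push_cast
      linarith [h3.2]
  · have h3 : e - S.n < S.n := by omega
    cases right with
    | false =>
      show -(_ + _ + _) ≤ (((0 : ℤ)) : ℝ)
      rw [zet_odd S z h3, zet_even S z h3, zet_nR]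
      push_cast
      linarith
    | true =>
      show _ + _ + _ ≤ (((0 : ℤ)) : ℝ)
      rw [zet_odd S z h3, zet_even S z h3, zet_nR]
      push_cast
      linarith
  · have h3 : e - 2 * S.n < S.cons.length := by
      unfold nT at he
      omega
    have h4 : S.cons.getD (e - 2 * S.n) (.inv 0 1) ∈ S.cons := by
      rw [List.getD_eq_getElem _ _ h3]
      exact List.getElem_mem _
    generalize S.cons.getD (e - 2 * S.n) (.inv 0 1) = k at h4
    have h5 := hc k h4
    have h6 := hS.2 k h4
    cases k with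
    | sum I κ =>
      obtain ⟨g0, g1, -, g2, -⟩ := h6
      exact q_sumBlk S z ε right I κ g0 g1 g2 h5
    | inv i j =>
      cases right with
      | false => trivial
      | true => exact h5

theorem q_blk (S : SInst) (z : ℕ → ℝ) (ε : ℝ) (hS : S.WF) (hz : ∀ i, i < S.n → |z i| ≤ 1)
    (hc : ∀ c ∈ S.cons, c.Holds ε z) (b : ℕ) : Qb S z ε (blk S b) := by
  unfold blk
  split_ifs with h1 h2
  · trivial
  · exact q_half S z ε hS hz hc _ _ (by omega)
  · exact q_half S z ε hS hz hc _ _ (by omega)

theorem sum_main (h0 : U0Stmt) (S : SInst) (hS : S.WF) (z : ℕ → ℝ) (t : ℝ) (c : ℕ) :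
    ∑ r ∈ (Finset.range (lay S).N).filter (fun r => (lay S).spc c r = true), dsp S z t c r =
      t ^ 4 * zet S z ((lay S).l c) := by
  have hN : (lay S).N = 2 * nR S + 1 := rfl
  have hl := l_le h0 S hS c
  have h1 : (Finset.range (lay S).N).filter (fun r => (lay S).spc c r = true) =
      (Finset.range ((lay S).l c)).image (fun i => 2 * i + 1) := by
    ext r
    rw [Finset.mem_filter, Finset.mem_range, Finset.mem_image]
    constructor
    · rintro ⟨hr, hs⟩
      unfold Lay.spc at hs
      rw [if_pos hr, Bool.and_eq_true, decide_eq_true_iff, decide_eq_true_iff] at hs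
      exact ⟨r / 2, Finset.mem_range.2 (by omega), by omega⟩
    · rintro ⟨i, hi, rfl⟩
      rw [Finset.mem_range] at hi
      have hr : 2 * i + 1 < (lay S).N := by omega
      refine ⟨hr, ?_⟩
      unfold Lay.spc
      rw [if_pos hr, Bool.and_eq_true, decide_eq_true_iff, decide_eq_true_iff]
      omega
  rw [h1, Finset.sum_image (fun i _ j _ h => by simpa using h)]
  have h2 : ∀ i ∈ Finset.range ((lay S).l c), dsp S z t c (2 * i + 1) =
      t ^ 4 * (zet S z (i + 1) - zet S z i) := by
    intro i hi
    rw [Finset.mem_range] at hi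
    unfold dsp
    rw [if_neg (by omega), if_pos (by omega)]
    have e1 : (2 * i + 1 + 1) / 2 = i + 1 := by omega
    have e2 : (2 * i + 1) / 2 = i := by omega
    rw [e1, e2]
  rw [Finset.sum_congr rfl h2, ← Finset.mul_sum, Finset.sum_range_sub, zet_zero, sub_zero]

theorem sum_top (h0 : U0Stmt) (S : SInst) (hS : S.WF) (z : ℕ → ℝ) (t : ℝ) (c : ℕ) :
    ∑ r ∈ (Finset.range ((lay S).top c)).filter (fun r => (lay S).spc c r = true),
      dsp S z t c r = t ^ 4 * zet S z ((lay S).l c) +
        ∑ m ∈ Finset.range ((lay S).kd c).h, (if ((lay S).kd c).sp (m + 1) = true then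
          (if m % 2 = 1 then 0 else loc S z t (blk S (c / 7)) (m + 1)) else 0) := by
  have hN : (lay S).N = 2 * nR S + 1 := rfl
  have htop : (lay S).top c = (lay S).N + ((lay S).kd c).h := rfl
  rw [← sum_main h0 S hS z t c, Finset.sum_filter, Finset.sum_filter, htop,
    Finset.sum_range_add]
  congr 1
  refine Finset.sum_congr rfl fun m _ => ?_
  have h1 : (lay S).spc c ((lay S).N + m) = ((lay S).kd c).sp (m + 1) := by
    unfold Lay.spc
    rw [if_neg (by omega)]
    congr 1
    show 2 * nR S + 1 + m - 2 * nR S = m + 1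
    omega
  rw [h1]
  by_cases h2 : ((lay S).kd c).sp (m + 1) = true
  · rw [if_pos h2, if_pos h2]
    unfold dsp
    by_cases h3 : m % 2 = 1
    · rw [if_pos (by omega), if_pos h3]
    · rw [if_neg (by omega), if_neg h3, if_neg (by omega)]
      congr 1
      omega
  · rw [if_neg h2, if_neg h2]

theorem u3 (h0 : U0Stmt) : U3Stmt := by
  intro S t hS ht ht60 hsol
  obtain ⟨z, hz, hc⟩ := hsol
  obtain ⟨h1, h2, -, -, h5, -⟩ := h0 S hS
  have hq := q_blk S z (eps1 t) hS hz hc
  have hN : (lay S).N = 2 * nR S + 1 := rfl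
  have ht4 : 0 < t ^ 4 := by positivity
  have ht8 : 0 < t ^ 8 := by positivity
  have h24 : 2 * t ^ 4 ≤ t ^ 3 := by
    have : t ≤ 1 / 2 := ht60.trans (by norm_num)
    have h3 : 0 < t ^ 3 := by positivity
    nlinarith only [ht, ht4, ht60]
  have hzb := zet_bd S z hz
  refine ⟨dsp S z t, ?_, ?_, ?_, ?_, ?_, ?_⟩
  · -- bound
    intro c r
    unfold dsp
    split_ifs with g1 g2
    · rw [abs_zero]
      positivity
    · have e1 := abs_le.1 (hzb ((r + 1) / 2))
      have e2 := abs_le.1 (hzb (r / 2))
      rw [abs_mul, abs_of_pos ht4]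
      have e3 : |zet S z ((r + 1) / 2) - zet S z (r / 2)| ≤ 2 := by
        rw [abs_le]
        constructor <;> linarith only [e1.1, e1.2, e2.1, e2.2]
      have e4 : t ^ 4 * |zet S z ((r + 1) / 2) - zet S z (r / 2)| ≤ t ^ 4 * 2 :=
        mul_le_mul_of_nonneg_left e3 ht4.le
      linarith
    · rcases hb : blk S (c / 7) with _ | ⟨right, a, a', a'', o⟩ | ⟨i, j⟩
      · simp only [loc, abs_zero]
        positivity
      · obtain ⟨-, -, -, o1, o2, -⟩ := h1 _ _ _ _ _ _ hb
        have o1' : (-1 : ℝ) ≤ o := by exact_mod_cast o1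
        have o2' : (o : ℝ) ≤ 1 := by exact_mod_cast o2
        have e1 := abs_le.1 (hzb a)
        have e2 := abs_le.1 (hzb a')
        have e3 := abs_le.1 (hzb a'')
        simp only [loc]
        split_ifs <;> rw [abs_le] <;> constructor <;> nlinarith only [ht4, h24, o1', o2', e1.1, e1.2, e2.1, e2.2, e3.1, e3.2]
      · simp only [loc, abs_zero]
        positivity
  · intro c r hr
    unfold dsp
    rw [if_pos hr]
  · -- row
    intro c r hp hp'
    unfold dsp
    split_ifs with g1 g2
    · rfl
    · rfl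
    · obtain ⟨-, hpr⟩ := (pres_iff _ _ _).1 hp
      obtain ⟨-, hpr'⟩ := (pres_iff _ _ _).1 hp'
      have hh : 0 < ((lay S).kd c).h := by
        unfold Lay.top at hpr
        omega
      have hh' : 0 < ((lay S).kd (c + 1)).h := by
        unfold Lay.top at hpr'
        omega
      suffices h : (c + 1) / 7 = c / 7 by rw [h]
      by_contra hne
      have k6 : c % 7 = 6 := by omega
      have k0 : (c + 1) % 7 = 0 := by omega
      have kb : (c + 1) / 7 = c / 7 + 1 := by omega
      rw [kd_eq, k6] at hh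
      rw [kd_eq, k0, kb] at hh'
      rcases hb : blk S (c / 7) with _ | ⟨right, a, a', a'', o⟩ | ⟨i, j⟩
      · rw [hb] at hh
        simp [Blk.col, Kind.h] at hh
      · rw [hb] at hh
        cases right with
        | false =>
          obtain ⟨-, -, -, -, -, -, hL⟩ := h1 _ _ _ _ _ _ hb
          have hL := hL rfl
          rcases hb' : blk S (c / 7 + 1) with _ | ⟨right', b, b', b'', o'⟩ | ⟨i', j'⟩
          · rw [hb'] at hh'
            simp [Blk.col, Kind.h] at hh'
          · cases right' with
            | false =>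
              rw [hb'] at hh'
              simp [Blk.col, Kind.h] at hh'
            | true =>
              obtain ⟨-, -, -, -, -, hR, -⟩ := h1 _ _ _ _ _ _ hb'
              have hR := hR rfl
              omega
          · rw [hb'] at hh'
            simp [Blk.col, Kind.h] at hh'
        | true => simp [Blk.col, Kind.h] at hh
      · rw [hb] at hh
        simp [Blk.col, Kind.h] at hh
  · -- port
    intro c _ _
    rw [sum_main h0 S hS, abs_mul, abs_of_pos ht4]
    have := hzb ((lay S).l c)
    have e4 : t ^ 4 * |zet S z ((lay S).l c)| ≤ t ^ 4 * 1 :=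
      mul_le_mul_of_nonneg_left this ht4.le
    linarith
  · -- ceil
    intro c hcM hL hR
    rw [sum_top h0 S hS]
    have hqb := hq (c / 7)
    unfold Lay.sg
    rw [kd_eq] at hL hR
    rw [kd_eq, l_eq]
    have hk : c % 7 < 7 := Nat.mod_lt _ (by norm_num)
    generalize c % 7 = k at *
    rcases hb : blk S (c / 7) with _ | ⟨right, a, a', a'', o⟩ | ⟨i, j⟩
    · simp [Blk.col, Kind.isW, Kind.h, Kind.off, zet_zero]
    · rw [hb] at hqb
      cases right with
      | false =>
        have hqb' : -(zet S z a + zet S z a' + zet S z a'') ≤ o := hqb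
        have hqc := mul_le_mul_of_nonneg_left hqb' ht8.le
        interval_cases k <;>
          simp [Blk.col, Kind.isW, Kind.h, Kind.off, Kind.sp, loc, zet_zero, zet_nR,
            Finset.sum_range_succ] <;> linarith only [hqc]
      | true =>
        have hqb' : zet S z a + zet S z a' + zet S z a'' ≤ o := hqb
        have hqc := mul_le_mul_of_nonneg_left hqb' ht8.le
        interval_cases k <;>
          simp [Blk.col, Kind.isW, Kind.h, Kind.off, Kind.sp, loc, zet_zero, zet_nR,
            Finset.sum_range_succ] <;> linarith only [hqc]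
    · rw [hb] at hL hR
      interval_cases k <;> simp [Blk.col, Kind.isL, Kind.isR] at hL hR <;>
        simp [Blk.col, Kind.isW, Kind.h, Kind.off, zet_zero]
  · -- lever
    intro c hcM hL
    rw [sum_main h0 S hS, sum_main h0 S hS]
    have hqb := hq (c / 7)
    have hk : c % 7 < 7 := Nat.mod_lt _ (by norm_num)
    have key : ∀ u v : ℝ, u + v + eps1 t * (u * v) = 0 →
        1 / 4 * (1 + t ^ 6) * (t ^ 4 * (t ^ 4 * u) + t ^ 4 * (t ^ 4 * v)) +
          2 * t ^ 3 * ((t ^ 4 * (t ^ 4 * u)) * (t ^ 4 * (t ^ 4 * v))) = 0 := by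
      intro u v huv
      have h6 : (1 + t ^ 6 : ℝ) ≠ 0 := by positivity
      unfold eps1 at huv
      field_simp at huv
      linear_combination (1 / 4 * t ^ 8) * huv
    rcases hb : blk S (c / 7) with _ | ⟨right, a, a', a'', o⟩ | ⟨i, j⟩
    · rw [kd_eq, hb] at hL
      simp [Blk.col, Kind.isL] at hL
    · rw [kd_eq, hb] at hL
      generalize c % 7 = k at *
      cases right <;> interval_cases k <;> simp [Blk.col, Kind.isL] at hL
    · obtain ⟨gij, gj, -⟩ := h2 _ _ _ hb
      rw [hb] at hqb
      have hqb' : z i + z j + eps1 t * (z i * z j) = 0 := hqb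
      have hkk := key _ _ hqb'
      have hL' := hL
      rw [kd_eq, hb] at hL'
      have hcase : c % 7 = 0 ∨ c % 7 = 3 := by
        generalize c % 7 = k at *
        interval_cases k <;> simp [Blk.col, Kind.isL] at hL' ⊢
      have hi : i < S.n := by omega
      rcases hcase with h7 | h7
      · have e1 : (lay S).l c = 2 * i + 1 := by rw [l_eq, h7, hb]; rfl
        have e2 : (lay S).l (c + 1) = 2 * j + 1 := by
          rw [l_eq, show (c + 1) % 7 = 1 by omega, show (c + 1) / 7 = c / 7 by omega, hb]; rfl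
        have e3 : (lay S).kd c = .pL true := by rw [kd_eq, h7, hb]; rfl
        rw [e1, e2, e3, zet_odd S z hi, zet_odd S z gj]
        simp only [Kind.sig, sgB, if_true]
        linarith only [hkk]
      · have e1 : (lay S).l c = 2 * i + 2 := by rw [l_eq, h7, hb]; rfl
        have e2 : (lay S).l (c + 1) = 2 * j + 2 := by
          rw [l_eq, show (c + 1) % 7 = 4 by omega, show (c + 1) / 7 = c / 7 by omega, hb]; rfl
        have e3 : (lay S).kd c = .pL false := by rw [kd_eq, h7, hb]; rfl
        rw [e1, e2, e3, zet_even S z hi, zet_even S z gj]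
        simp only [Kind.sig, sgB, Bool.false_eq_true, if_false]
        linarith only [hkk]

end Pool.Agent.Helper2_Pak.H51
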